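import Mathlib
import Pool.Agent.N746.Self.Defs

/-!
# The inequality for the point `∞` and the `n`-th roots of an integer
-/

namespace Pool.Agent.N746.Rt

open Pool.Agent.N746.Self

/-- the inequality of the abc conjecture for the set of the `n + 1` points `α` of the projective line
with `α ^ n = k` or `α = ∞` and the rational points `x / y`: for every `ε > 0` there is `κ` with
`max (|x|, |y|) ^ (n - 1) ≤ κ R (y (x ^ n - k y ^ n)) ^ (1 + ε)` for all coprime integers `x, y` with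
`y (x ^ n - k y ^ n) ≠ 0` -/
def RootPoints (n : ℕ) (k : ℤ) : Prop :=
  ∀ ε : ℝ, 0 < ε → ∃ κ : ℝ, ∀ x y : ℤ, IsCoprime x y → y * (x ^ n - k * y ^ n) ≠ 0 →
    max |(x : ℝ)| |(y : ℝ)| ^ (n - 1) ≤ κ * (R (y * (x ^ n - k * y ^ n)).natAbs : ℝ) ^ (1 + ε)

end Pool.Agent.N746.Rt
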