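import Mathlib
import Pool.Agent.N746.Rt.Defs
import Pool.Agent.N746.Tw.Main

/-!
# The inequality for `∞` and the `n`-th roots: scaling, and the abc conjecture implies it
-/

namespace Pool.Agent.N746.Rt

open Finset Filter Pool.Agent.N746.Self Pool.Agent.N746.Tw

/-- a variant of `solve` -/
theorem solve2 (d e : ℕ) (he : 1 ≤ e) (hed : e ≤ d) (ε : ℝ) (hε : 0 < ε) : ∃ ε' : ℝ, 0 < ε' ∧
    ∀ K κ₁ : ℝ, 1 ≤ K → 1 ≤ κ₁ → ∃ κ : ℝ, 1 ≤ κ ∧ ∀ c r : ℝ, 1 ≤ c → 1 ≤ r →
      c ^ d ≤ K * κ₁ * (K * r * c ^ (d - e)) ^ (1 + ε') → c ^ e ≤ κ * r ^ (1 + ε) := by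
  set E : ℝ := 1 + d * (1 + ε) with hE
  have hE1 : 1 ≤ E := by
    rw [hE]
    have : (0:ℝ) ≤ d * (1 + ε) := by positivity
    linarith
  set ε' : ℝ := ε / E with hε'
  have hε'0 : 0 < ε' := by rw [hε']; positivity
  refine ⟨ε', hε'0, fun K κ₁ hK hκ₁ => ?_⟩
  have hεE : ε' * E = ε := by rw [hε']; field_simp
  set f : ℝ := 1 - d * ε' with hf
  have hkey : (1 + ε) * f = 1 + ε' := by
    rw [hf]
    have : ε' * (1 + d * (1 + ε)) = ε := by rw [← hE]; exact hεE
    linarith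
  have hf0 : 0 < f := by
    have : 0 < (1 + ε) * f := by rw [hkey]; linarith
    exact (mul_pos_iff_of_pos_left (by linarith)).1 this
  set C : ℝ := Real.log K + Real.log κ₁ + (1 + ε') * Real.log K with hC
  have hlK : 0 ≤ Real.log K := Real.log_nonneg hK
  have hlκ : 0 ≤ Real.log κ₁ := Real.log_nonneg hκ₁
  have hC0 : 0 ≤ C := by rw [hC]; positivity
  refine ⟨Real.exp (C / f), Real.one_le_exp (by positivity), fun c r hc hr hcr => ?_⟩
  have hc0 : 0 < c := by linarith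
  have hr0 : 0 < r := by linarith
  have hK0 : 0 < K := by linarith
  have hκ0 : 0 < κ₁ := by linarith
  set ℓ := Real.log c with hℓ
  set ρ := Real.log r with hρ
  have hℓ0 : 0 ≤ ℓ := Real.log_nonneg hc
  have hρ0 : 0 ≤ ρ := Real.log_nonneg hr
  have l4 : d * ℓ ≤ C + (1 + ε') * (ρ + (d - e) * ℓ) := by
    have h1 := Real.log_le_log (by positivity) hcr
    have hp : 0 < K * r * c ^ (d - e) := by positivity
    rw [Real.log_pow, Real.log_mul (by positivity) (Real.rpow_pos_of_pos hp _).ne',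
      Real.log_mul (by positivity) (by positivity), Real.log_rpow hp,
      Real.log_mul (by positivity) (by positivity), Real.log_mul (by positivity) (by positivity),
      Real.log_pow, Nat.cast_sub hed] at h1
    rw [hC]
    linarith
  have heR : (1 : ℝ) ≤ e := by exact_mod_cast he
  have hedR : (e : ℝ) ≤ d := by exact_mod_cast hed
  have l5 : f * (e * ℓ) ≤ C + (1 + ε') * ρ := by
    have h1 : (d - e : ℝ) * ε' * ℓ ≤ (d * ε') * (e * ℓ) := by
      have h2 : (d - e : ℝ) * ε' ≤ d * ε' := mul_le_mul_of_nonneg_right (by linarith) hε'0.le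
      have h3 : ℓ ≤ e * ℓ := le_mul_of_one_le_left hℓ0 heR
      have h4 : (0 : ℝ) ≤ d * ε' := by positivity
      calc (d - e : ℝ) * ε' * ℓ ≤ (d * ε') * ℓ := mul_le_mul_of_nonneg_right h2 hℓ0
        _ ≤ _ := mul_le_mul_of_nonneg_left h3 h4
    rw [hf]
    nlinarith
  have l6 : e * ℓ ≤ C / f + (1 + ε) * ρ := by
    have : e * ℓ ≤ (C + (1 + ε') * ρ) / f := by
      rw [le_div_iff₀ hf0]; linarith
    calc e * ℓ ≤ (C + (1 + ε') * ρ) / f := this
      _ = C / f + (1 + ε) * ρ := by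
        rw [← hkey]; field_simp
  have hce : 0 < c ^ e := by positivity
  rw [Real.rpow_def_of_pos hr0, ← Real.exp_add, ← Real.exp_log hce]
  apply Real.exp_le_exp.2
  rw [Real.log_pow, ← hℓ, ← hρ]
  linarith

theorem scale (n : ℕ) (k₁ k₂ α β : ℤ) (hα : α ≠ 0) (hβ : β ≠ 0) (h : k₁ * β ^ n = k₂ * α ^ n)
    (hV : RootPoints n k₁) : RootPoints n k₂ := by
  intro ε hε
  obtain ⟨κ, hκ⟩ := hV ε hε
  have hαβ : α * β ≠ 0 := mul_ne_zero hα hβ
  set B : ℝ := |((α * β : ℤ) : ℝ)| with hB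
  have hB1 : 1 ≤ B := by rw [hB]; exact_mod_cast Int.one_le_abs hαβ
  refine ⟨B ^ (n - 1) * (max κ 1 * B ^ (1 + ε)), fun x y hxy hne => ?_⟩
  have hy : y ≠ 0 := left_ne_zero_of_mul hne
  have hw : x ^ n - k₂ * y ^ n ≠ 0 := right_ne_zero_of_mul hne
  -- the greatest common divisor
  set g : ℤ := (Int.gcd (α * x) (β * y) : ℤ) with hg
  obtain ⟨X, hX⟩ : g ∣ α * x := Int.gcd_dvd_left _ _
  obtain ⟨Y, hY⟩ : g ∣ β * y := Int.gcd_dvd_right _ _
  have hg0 : g ≠ 0 := by
    intro h0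
    rw [h0, zero_mul] at hY
    exact mul_ne_zero hβ hy hY
  have hgpos : 0 < g := lt_of_le_of_ne (by rw [hg]; positivity) hg0.symm
  have hg2 : g ∣ α * β := by
    obtain ⟨u, v, huv⟩ := hxy
    have h1 : α * β = g * (u * β * X + v * α * Y) := by
      calc α * β = (u * x + v * y) * (α * β) := by rw [huv, one_mul]
        _ = u * β * (α * x) + v * α * (β * y) := by ring
        _ = _ := by rw [hX, hY]; ring
    exact ⟨_, h1⟩
  have hgle : (g : ℝ) ≤ B := by
    rw [hB]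
    have h1 : g ≤ |α * β| := Int.le_of_dvd (abs_pos.2 hαβ) ((dvd_abs _ _).2 hg2)
    exact_mod_cast h1
  have hXY : IsCoprime X Y := by
    have h1 : Int.gcd X Y = 1 := by
      have h2 : (Int.gcd (α * x) (β * y) : ℤ) = Int.gcd (g * X) (g * Y) := by rw [← hX, ← hY]
      rw [Int.gcd_mul_left] at h2
      have h3 : g = g * (Int.gcd X Y : ℤ) := by
        calc g = (Int.gcd (α * x) (β * y) : ℤ) := hg
          _ = ((g.natAbs * Int.gcd X Y : ℕ) : ℤ) := h2
          _ = g * (Int.gcd X Y : ℤ) := by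
            push_cast
            rw [abs_of_pos hgpos]
      have h4 : (1 : ℤ) = (Int.gcd X Y : ℤ) :=
        mul_left_cancel₀ hg0 (by rw [mul_one]; exact h3)
      exact_mod_cast h4.symm
    exact Int.isCoprime_iff_gcd_eq_one.2 h1
  have hY0 : Y ≠ 0 := by
    rintro rfl
    rw [mul_zero] at hY
    exact mul_ne_zero hβ hy hY
  have e1 : g ^ n * (X ^ n - k₁ * Y ^ n) = α ^ n * (x ^ n - k₂ * y ^ n) := by
    calc g ^ n * (X ^ n - k₁ * Y ^ n) = (g * X) ^ n - k₁ * (g * Y) ^ n := by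
          rw [mul_pow, mul_pow]; ring
      _ = (α * x) ^ n - k₁ * (β * y) ^ n := by rw [← hX, ← hY]
      _ = α ^ n * x ^ n - (k₁ * β ^ n) * y ^ n := by rw [mul_pow, mul_pow]; ring
      _ = _ := by rw [h]; ring
  have hW0 : X ^ n - k₁ * Y ^ n ≠ 0 := by
    intro h0
    rw [h0, mul_zero] at e1
    exact mul_ne_zero (pow_ne_zero _ hα) hw e1.symm
  have h1 := hκ X Y hXY (mul_ne_zero hY0 hW0)
  have hR : R (Y * (X ^ n - k₁ * Y ^ n)).natAbs ≤ R (y * (x ^ n - k₂ * y ^ n)).natAbs * (α * β).natAbs := by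
    apply R_bound (Int.natAbs_ne_zero.2 hne) (Int.natAbs_ne_zero.2 hαβ)
    intro p hp hpd
    have hpp : Prime (p : ℤ) := Nat.prime_iff_prime_int.1 hp
    have h2 : (p : ℤ) ∣ Y * (X ^ n - k₁ * Y ^ n) := Int.natCast_dvd.2 hpd
    have h4 : (p : ℤ) ∣ y * (x ^ n - k₂ * y ^ n) * (α * β) := by
      rcases hpp.dvd_mul.1 h2 with h3 | h3
      · have h5 : (p : ℤ) ∣ β * y := by rw [hY]; exact h3.mul_left _
        rcases hpp.dvd_mul.1 h5 with h6 | h6
        · exact (h6.mul_left _).mul_left _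
        · exact (h6.mul_right _).mul_right _
      · have h5 : (p : ℤ) ∣ α ^ n * (x ^ n - k₂ * y ^ n) := by rw [← e1]; exact h3.mul_left _
        rcases hpp.dvd_mul.1 h5 with h6 | h6
        · exact ((hpp.dvd_of_dvd_pow h6).mul_right _).mul_left _
        · exact (h6.mul_left _).mul_right _
    rw [← Int.natAbs_mul]
    exact Int.natCast_dvd.1 h4
  have hRR : (R (Y * (X ^ n - k₁ * Y ^ n)).natAbs : ℝ) ≤ R (y * (x ^ n - k₂ * y ^ n)).natAbs * B := by
    have h2 : (((α * β).natAbs : ℕ) : ℝ) = B := by rw [hB, Nat.cast_natAbs, Int.cast_abs]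
    rw [← h2]
    exact_mod_cast hR
  have hgR0 : (0 : ℝ) < g := by exact_mod_cast hgpos
  have hαR : (1 : ℝ) ≤ |(α : ℝ)| := by exact_mod_cast Int.one_le_abs hα
  have hβR : (1 : ℝ) ≤ |(β : ℝ)| := by exact_mod_cast Int.one_le_abs hβ
  have hmax : max |(x : ℝ)| |(y : ℝ)| ≤ B * max |(X : ℝ)| |(Y : ℝ)| := by
    have hx' : |(x : ℝ)| ≤ B * |(X : ℝ)| := by
      have h2 : (α : ℝ) * x = g * X := by exact_mod_cast hX
      calc |(x : ℝ)| ≤ |(α : ℝ)| * |(x : ℝ)| := le_mul_of_one_le_left (abs_nonneg _) hαR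
        _ = g * |(X : ℝ)| := by rw [← abs_mul, h2, abs_mul, abs_of_pos hgR0]
        _ ≤ _ := mul_le_mul_of_nonneg_right hgle (abs_nonneg _)
    have hy' : |(y : ℝ)| ≤ B * |(Y : ℝ)| := by
      have h2 : (β : ℝ) * y = g * Y := by exact_mod_cast hY
      calc |(y : ℝ)| ≤ |(β : ℝ)| * |(y : ℝ)| := le_mul_of_one_le_left (abs_nonneg _) hβR
        _ = g * |(Y : ℝ)| := by rw [← abs_mul, h2, abs_mul, abs_of_pos hgR0]
        _ ≤ _ := mul_le_mul_of_nonneg_right hgle (abs_nonneg _)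
    refine max_le (hx'.trans ?_) (hy'.trans ?_)
    · exact mul_le_mul_of_nonneg_left (le_max_left _ _) (by linarith)
    · exact mul_le_mul_of_nonneg_left (le_max_right _ _) (by linarith)
  have hmax0 : 0 ≤ max |(x : ℝ)| |(y : ℝ)| := le_max_of_le_left (abs_nonneg _)
  calc max |(x : ℝ)| |(y : ℝ)| ^ (n - 1) ≤ (B * max |(X : ℝ)| |(Y : ℝ)|) ^ (n - 1) :=
        pow_le_pow_left₀ hmax0 hmax _
    _ = B ^ (n - 1) * max |(X : ℝ)| |(Y : ℝ)| ^ (n - 1) := mul_pow _ _ _
    _ ≤ B ^ (n - 1) * (max κ 1 * (R (Y * (X ^ n - k₁ * Y ^ n)).natAbs : ℝ) ^ (1 + ε)) := by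
        apply mul_le_mul_of_nonneg_left _ (by positivity)
        exact h1.trans (mul_le_mul_of_nonneg_right (le_max_left _ _)
          (Real.rpow_nonneg (Nat.cast_nonneg _) _))
    _ ≤ B ^ (n - 1) * (max κ 1 * (R (y * (x ^ n - k₂ * y ^ n)).natAbs * B : ℝ) ^ (1 + ε)) := by
        apply mul_le_mul_of_nonneg_left _ (by positivity)
        apply mul_le_mul_of_nonneg_left _ (le_trans zero_le_one (le_max_right _ _))
        exact Real.rpow_le_rpow (Nat.cast_nonneg _) hRR (by linarith)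
    _ = _ := by
        rw [Real.mul_rpow (Nat.cast_nonneg _) (by linarith)]
        ring

theorem root_of_abc (n : ℕ) (hn : 2 ≤ n) (k : ℤ) (hk : k ≠ 0) (h : ABC fun _ _ _ => True) :
    RootPoints n k := by
  intro ε hε
  obtain ⟨ε', hε', hsol⟩ := solve2 n (n - 1) (by omega) (by omega) ε hε
  obtain ⟨κ, hκ⟩ := h ε' hε'
  have hk1 : (1 : ℝ) ≤ |(k : ℝ)| := by exact_mod_cast Int.one_le_abs hk
  obtain ⟨κ₂, hκ₂1, hκ₂⟩ := hsol |(k : ℝ)| (max κ 1) hk1 (le_max_right _ _)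
  refine ⟨κ₂, fun x y hxy hne => ?_⟩
  have hy : y ≠ 0 := left_ne_zero_of_mul hne
  have hw : x ^ n - k * y ^ n ≠ 0 := right_ne_zero_of_mul hne
  have hRp : (1 : ℝ) ≤ R (y * (x ^ n - k * y ^ n)).natAbs := by exact_mod_cast R_pos _
  have hRe : (1 : ℝ) ≤ (R (y * (x ^ n - k * y ^ n)).natAbs : ℝ) ^ (1 + ε) :=
    Real.one_le_rpow hRp (by linarith)
  rcases eq_or_ne x 0 with hx | hx
  · have hy1 : |(y : ℝ)| = 1 := by
      rw [hx, isCoprime_zero_left, Int.isUnit_iff_abs_eq] at hxy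
      exact_mod_cast hxy
    have hm : max |(x : ℝ)| |(y : ℝ)| = 1 := by
      rw [hx, hy1, Int.cast_zero, abs_zero, max_eq_right zero_le_one]
    rw [hm, one_pow]
    exact one_le_mul_of_one_le_of_one_le hκ₂1 hRe
  · set M : ℝ := max |(x : ℝ)| |(y : ℝ)| with hM
    have hx1 : (1 : ℝ) ≤ |(x : ℝ)| := by exact_mod_cast Int.one_le_abs hx
    have hM1 : 1 ≤ M := hx1.trans (le_max_left _ _)
    apply hκ₂ M _ hM1 hRp
    have hβ : -(k * y ^ n) ≠ 0 := neg_ne_zero.2 (mul_ne_zero hk (pow_ne_zero n hy))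
    have hα : x ^ n ≠ 0 := pow_ne_zero n hx
    obtain ⟨m, a, b, c, hm, ha, hb, hab, habc, _, hmα, hmβ, hαc, hβc, hpr⟩ :=
      arrange (x ^ n) (-(k * y ^ n)) hα hβ (by rwa [← sub_eq_add_neg])
    have hc0 : 0 < c := by omega
    have hmD : (m : ℤ) ∣ k := by
      have h1 : IsCoprime (m : ℤ) (y ^ n) := by
        have : IsCoprime (x ^ n) (y ^ n) := hxy.pow
        exact this.of_isCoprime_of_dvd_left hmα
      rw [dvd_neg] at hmβ
      exact h1.dvd_of_dvd_mul_right hmβ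
    have hmR : (m : ℝ) ≤ |(k : ℝ)| := by
      have h1 : m ≤ k.natAbs := Nat.le_of_dvd (Int.natAbs_pos.2 hk) (Int.natCast_dvd.1 hmD)
      have h2 : (m : ℝ) ≤ ((k.natAbs : ℕ) : ℝ) := by exact_mod_cast h1
      rwa [Nat.cast_natAbs, Int.cast_abs] at h2
    have hMc : M ^ n ≤ |(k : ℝ)| * c := by
      have h1 : |(x : ℝ)| ^ n ≤ m * c := by
        have : ((x ^ n).natAbs : ℝ) ≤ m * c := by exact_mod_cast hαc
        rwa [Nat.cast_natAbs, Int.cast_abs, Int.cast_pow, abs_pow] at this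
      have h2 : |(y : ℝ)| ^ n ≤ m * c := by
        have : ((-(k * y ^ n)).natAbs : ℝ) ≤ m * c := by exact_mod_cast hβc
        rw [Nat.cast_natAbs, Int.cast_abs, Int.cast_neg, abs_neg, Int.cast_mul, Int.cast_pow, abs_mul,
          abs_pow] at this
        refine le_trans ?_ this
        exact le_mul_of_one_le_left (by positivity) hk1
      have h3 : M ^ n ≤ m * c := by
        rcases max_choice |(x : ℝ)| |(y : ℝ)| with h | h
        · rw [hM, h]; exact h1
        · rw [hM, h]; exact h2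
      exact h3.trans (mul_le_mul_of_nonneg_right hmR (Nat.cast_nonneg _))
    have hRabc : (R (a * b * c) : ℝ) ≤ |(k : ℝ)| * R (y * (x ^ n - k * y ^ n)).natAbs * M := by
      have h0 : R (a * b * c) ≤ R (y * (x ^ n - k * y ^ n)).natAbs * (k.natAbs * x.natAbs) := by
        apply R_bound (Int.natAbs_ne_zero.2 hne)
          (mul_ne_zero (Int.natAbs_ne_zero.2 hk) (Int.natAbs_ne_zero.2 hx))
        intro p hp hpd
        have hpp := Nat.prime_iff_prime_int.1 hp
        have h1 := hpr p hp hpd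
        rw [← sub_eq_add_neg] at h1
        have h3 : (p : ℤ) ∣ y * (x ^ n - k * y ^ n) * (k * x) := by
          rcases hpp.dvd_mul.1 h1 with h2 | h2
          · rcases hpp.dvd_mul.1 h2 with h4 | h4
            · exact ((hpp.dvd_of_dvd_pow h4).mul_left _).mul_left _
            · rw [dvd_neg] at h4
              rcases hpp.dvd_mul.1 h4 with h5 | h5
              · exact (h5.mul_right _).mul_left _
              · exact ((hpp.dvd_of_dvd_pow h5).mul_right _).mul_right _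
          · exact (h2.mul_left _).mul_right _
        rw [← Int.natAbs_mul, ← Int.natAbs_mul]
        exact Int.natCast_dvd.1 h3
      have h1 : (R (a * b * c) : ℝ) ≤ R (y * (x ^ n - k * y ^ n)).natAbs *
          (((k.natAbs : ℕ) : ℝ) * ((x.natAbs : ℕ) : ℝ)) := by exact_mod_cast h0
      rw [Nat.cast_natAbs, Nat.cast_natAbs, Int.cast_abs, Int.cast_abs] at h1
      calc (R (a * b * c) : ℝ) ≤ _ := h1
        _ = |(k : ℝ)| * R (y * (x ^ n - k * y ^ n)).natAbs * |(x : ℝ)| := by ring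
        _ ≤ _ := mul_le_mul_of_nonneg_left (le_max_left _ _) (by positivity)
    have h1 := hκ a b c ha hb hab habc trivial
    have e2 : n - (n - 1) = 1 := by omega
    rw [e2, pow_one]
    calc M ^ n ≤ |(k : ℝ)| * c := hMc
      _ ≤ |(k : ℝ)| * (max κ 1 * (R (a * b * c) : ℝ) ^ (1 + ε')) := by
          apply mul_le_mul_of_nonneg_left _ (abs_nonneg _)
          exact h1.trans (mul_le_mul_of_nonneg_right (le_max_left _ _)
            (Real.rpow_nonneg (Nat.cast_nonneg _) _))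
      _ = |(k : ℝ)| * max κ 1 * (R (a * b * c) : ℝ) ^ (1 + ε') := by ring
      _ ≤ |(k : ℝ)| * max κ 1 * (|(k : ℝ)| * R (y * (x ^ n - k * y ^ n)).natAbs * M) ^ (1 + ε') := by
          apply mul_le_mul_of_nonneg_left _ (by positivity)
          exact Real.rpow_le_rpow (Nat.cast_nonneg _) hRabc (by linarith)

end Pool.Agent.N746.Rt
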