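import Mathlib
import Pool.Agent.N746.Rt.Easy

/-!
# The Newton map: the points `0`, `∞` and the `n`-th roots from the points `∞` and the `n`-th roots
-/

namespace Pool.Agent.N746.Rt

open Finset Filter Pool.Agent.N746.Self Pool.Agent.N746.Tw

/-- the inequality for `0`, `∞` and the `n`-th roots of `k`, near the point `∞` -/
def NearB (n : ℕ) (k : ℤ) (N₀ : ℕ) (K : ℝ) : Prop :=
  ∀ ε : ℝ, 0 < ε → ∃ κ : ℝ, 1 ≤ κ ∧ ∀ P Q : ℕ, 0 < P → 0 < Q → Nat.Coprime P Q → N₀ ∣ Q →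
    (Q : ℝ) * K ≤ P →
    (P : ℝ) ^ n ≤ κ * (R (P * Q * ((P : ℤ) ^ n - k * (Q : ℤ) ^ n).natAbs) : ℝ) ^ (1 + ε)

theorem nearB_of_root (n : ℕ) (hn : 2 ≤ n) (k : ℤ) (hk : k ≠ 0) (h : RootPoints n k) :
    NearB n k ((n - 1) * (n * (n - 1) * k.natAbs)) (4 * n * |(k : ℝ)|) := by
  obtain ⟨m, rfl⟩ : ∃ m, n = m + 2 := ⟨n - 2, by omega⟩
  intro ε hε
  obtain ⟨ε', hε', hsol⟩ := solve2 ((m + 2) * (m + 1)) (m + 2) (by omega) (by nlinarith) ε hε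
  obtain ⟨κ, hκ⟩ := h ε' hε'
  have hk1 : (1 : ℝ) ≤ |(k : ℝ)| := by exact_mod_cast Int.one_le_abs hk
  set C : ℝ := 2 ^ (m + 2) * (((m + 2 : ℕ) : ℝ) + 2) ^ m with hC
  have hC1 : 1 ≤ C := by
    rw [hC]
    have h1 : (1 : ℝ) ≤ 2 ^ (m + 2) := one_le_pow₀ (by norm_num)
    have h2 : (1 : ℝ) ≤ (((m + 2 : ℕ) : ℝ) + 2) ^ m := by
      apply one_le_pow₀
      have : (0 : ℝ) ≤ ((m + 2 : ℕ) : ℝ) := Nat.cast_nonneg _
      linarith
    exact one_le_mul_of_one_le_of_one_le h1 h2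
  have hn1 : (1 : ℝ) ≤ ((m + 2 : ℕ) : ℝ) := by exact_mod_cast (by omega : 1 ≤ m + 2)
  set K₂ : ℝ := 2 ^ (m + 1) * (((m + 2 : ℕ) : ℝ) * C) with hK₂
  have h2m : (1 : ℝ) ≤ 2 ^ (m + 1) := one_le_pow₀ (by norm_num)
  have hnC : 1 ≤ ((m + 2 : ℕ) : ℝ) * C := one_le_mul_of_one_le_of_one_le hn1 hC1
  have hK₂1 : 1 ≤ K₂ := one_le_mul_of_one_le_of_one_le h2m hnC
  have hK₂a : (2 : ℝ) ^ (m + 1) ≤ K₂ := le_mul_of_one_le_right (by positivity) hnC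
  have hK₂b : ((m + 2 : ℕ) : ℝ) * C ≤ K₂ := le_mul_of_one_le_left (by positivity) h2m
  obtain ⟨κ₂, hκ₂1, hκ₂⟩ := hsol K₂ (max κ 1) hK₂1 (le_max_right _ _)
  refine ⟨κ₂, hκ₂1, fun P Q hP hQ hPQ hN hQK => ?_⟩
  obtain ⟨w, hw⟩ := hN
  obtain ⟨q, hq⟩ : ∃ q, q = (m + 2) * (m + 1) * k.natAbs * w := ⟨_, rfl⟩
  have hQq : Q = (m + 1) * q := by
    rw [hw, hq, show m + 2 - 1 = m + 1 by omega]; ring
  have hq0 : 0 < q := by
    rcases Nat.eq_zero_or_pos q with h0 | h0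
    · rw [h0, mul_zero] at hQq; omega
    · exact h0
  have hqQ : q ≤ Q := by rw [hQq]; exact Nat.le_mul_of_pos_left _ (by omega)
  have hqdQ : q ∣ Q := ⟨m + 1, by rw [hQq]; ring⟩
  have hnq : (m + 2) ∣ q := by rw [hq]; exact ⟨(m + 1) * k.natAbs * w, by ring⟩
  have hn1q : (m + 1) ∣ q := by rw [hq]; exact ⟨(m + 2) * k.natAbs * w, by ring⟩
  have hkq : k.natAbs ∣ q := by rw [hq]; exact ⟨(m + 2) * (m + 1) * w, by ring⟩
  have hPR : (0 : ℝ) < P := by exact_mod_cast hP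
  have hP1 : (1 : ℝ) ≤ P := by exact_mod_cast hP
  have hQR : (0 : ℝ) < Q := by exact_mod_cast hQ
  have hqR : (0 : ℝ) < q := by exact_mod_cast hq0
  have hqQR : (q : ℝ) ≤ Q := by exact_mod_cast hqQ
  -- `|k| Q ^ n * (4 n) ≤ P ^ n`
  have hK0 : (1 : ℝ) ≤ 4 * ((m + 2 : ℕ) : ℝ) * |(k : ℝ)| := by nlinarith
  have hbase : |(k : ℝ)| * (Q : ℝ) ^ (m + 2) * 8 ≤ (P : ℝ) ^ (m + 2) := by
    have h1 : ((Q : ℝ) * (4 * ((m + 2 : ℕ) : ℝ) * |(k : ℝ)|)) ^ (m + 2) ≤ (P : ℝ) ^ (m + 2) :=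
      pow_le_pow_left₀ (by positivity) hQK _
    rw [mul_pow] at h1
    have h2 : 4 * ((m + 2 : ℕ) : ℝ) * |(k : ℝ)| ≤ (4 * ((m + 2 : ℕ) : ℝ) * |(k : ℝ)|) ^ (m + 2) := by
      calc 4 * ((m + 2 : ℕ) : ℝ) * |(k : ℝ)| = (4 * ((m + 2 : ℕ) : ℝ) * |(k : ℝ)|) ^ 1 := (pow_one _).symm
        _ ≤ _ := pow_le_pow_right₀ hK0 (by omega)
    have h3 : (8 : ℝ) * |(k : ℝ)| ≤ 4 * ((m + 2 : ℕ) : ℝ) * |(k : ℝ)| := by
      apply mul_le_mul_of_nonneg_right _ (abs_nonneg _)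
      have : (2 : ℝ) ≤ ((m + 2 : ℕ) : ℝ) := by exact_mod_cast (by omega : 2 ≤ m + 2)
      linarith
    calc |(k : ℝ)| * (Q : ℝ) ^ (m + 2) * 8 = (Q : ℝ) ^ (m + 2) * (8 * |(k : ℝ)|) := by ring
      _ ≤ (Q : ℝ) ^ (m + 2) * (4 * ((m + 2 : ℕ) : ℝ) * |(k : ℝ)|) ^ (m + 2) :=
          mul_le_mul_of_nonneg_left (h3.trans h2) (by positivity)
      _ ≤ _ := h1
  set T : ℤ := k * ((m + 1 : ℕ) : ℤ) ^ (m + 1) * (q : ℤ) ^ (m + 2) with hT
  set x : ℤ := (P : ℤ) ^ (m + 2) + T with hx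
  set y : ℤ := ((m + 2 : ℕ) : ℤ) * (P : ℤ) ^ (m + 1) * q with hy
  have hTabs : |(T : ℝ)| * 8 ≤ (P : ℝ) ^ (m + 2) := by
    refine le_trans ?_ hbase
    apply mul_le_mul_of_nonneg_right _ (by norm_num)
    rw [hT]
    push_cast
    rw [abs_mul, abs_mul, abs_of_nonneg (by positivity : (0 : ℝ) ≤ ((m : ℝ) + 1) ^ (m + 1)),
      abs_of_nonneg (by positivity : (0 : ℝ) ≤ (q : ℝ) ^ (m + 2))]
    rw [hQq]
    push_cast
    rw [mul_pow, mul_assoc]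
    apply mul_le_mul_of_nonneg_left _ (abs_nonneg _)
    apply mul_le_mul_of_nonneg_right _ (by positivity)
    apply pow_le_pow_right₀ _ (by omega)
    have : (0 : ℝ) ≤ m := Nat.cast_nonneg _
    linarith
  have hPn : (0 : ℝ) < (P : ℝ) ^ (m + 2) := by positivity
  have hxR : (P : ℝ) ^ (m + 2) ≤ 2 * (x : ℝ) := by
    have h1 : (x : ℝ) = (P : ℝ) ^ (m + 2) + T := by rw [hx]; push_cast; ring
    have h2 := neg_abs_le (T : ℝ)
    rw [h1]; linarith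
  have hx0 : (0 : ℝ) < x := by linarith
  have hyabs : |(k : ℝ)| * (y : ℝ) ^ (m + 2) < (x : ℝ) ^ (m + 2) := by
    have h1 : (y : ℝ) = ((m + 2 : ℕ) : ℝ) * (P : ℝ) ^ (m + 1) * q := by rw [hy]; push_cast; ring
    have h2 : |(k : ℝ)| * (y : ℝ) ^ (m + 2) ≤ ((P : ℝ) ^ (m + 2) / 4) ^ (m + 2) := by
      have h3 : |(k : ℝ)| ≤ |(k : ℝ)| ^ (m + 2) := by
        calc |(k : ℝ)| = |(k : ℝ)| ^ 1 := (pow_one _).symm
          _ ≤ _ := pow_le_pow_right₀ hk1 (by omega)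
      calc |(k : ℝ)| * (y : ℝ) ^ (m + 2) ≤ |(k : ℝ)| ^ (m + 2) * (y : ℝ) ^ (m + 2) := by
            apply mul_le_mul_of_nonneg_right h3
            rw [h1]; positivity
        _ = (|(k : ℝ)| * y) ^ (m + 2) := (mul_pow _ _ _).symm
        _ ≤ _ := by
          apply pow_le_pow_left₀
          · rw [h1]; positivity
          rw [h1, le_div_iff₀ (by norm_num)]
          calc |(k : ℝ)| * (((m + 2 : ℕ) : ℝ) * (P : ℝ) ^ (m + 1) * q) * 4
              = (q * (4 * ((m + 2 : ℕ) : ℝ) * |(k : ℝ)|)) * (P : ℝ) ^ (m + 1) := by ring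
            _ ≤ (Q * (4 * ((m + 2 : ℕ) : ℝ) * |(k : ℝ)|)) * (P : ℝ) ^ (m + 1) := by gcongr
            _ ≤ P * (P : ℝ) ^ (m + 1) := by gcongr
            _ = (P : ℝ) ^ (m + 2) := by ring
    refine lt_of_le_of_lt h2 ?_
    apply pow_lt_pow_left₀ _ (by positivity) (by omega)
    linarith
  have hxyne : x ^ (m + 2) - k * y ^ (m + 2) ≠ 0 := by
    intro h0
    have h1 : (x : ℝ) ^ (m + 2) - k * (y : ℝ) ^ (m + 2) = 0 := by exact_mod_cast h0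
    have h2 : (x : ℝ) ^ (m + 2) ≤ |(k : ℝ)| * (y : ℝ) ^ (m + 2) := by
      have h3 : (x : ℝ) ^ (m + 2) = k * (y : ℝ) ^ (m + 2) := by linarith
      rw [h3]
      apply mul_le_mul_of_nonneg_right (le_abs_self _)
      have : (0 : ℝ) ≤ y := by rw [hy]; push_cast; positivity
      positivity
    linarith
  have hy0 : y ≠ 0 := by rw [hy]; positivity
  have hcop : IsCoprime x y := by
    have hnat : ∀ p : ℕ, p.Prime → (p : ℤ) ∣ x → (p : ℤ) ∣ y → False := by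
      intro p hp h1 h2
      have hpP : Prime (p : ℤ) := Nat.prime_iff_prime_int.1 hp
      have hQP : ∀ p : ℕ, p.Prime → p ∣ P → p ∣ Q → False := by
        intro p hp h1 h2
        have := Nat.dvd_gcd h1 h2
        rw [hPQ] at this
        exact hp.one_lt.ne' (Nat.dvd_one.1 this)
      have cq : ¬ p ∣ q := by
        intro h3
        have h4 : (p : ℤ) ∣ T := by
          rw [hT]
          exact (dvd_pow (Int.natCast_dvd_natCast.2 h3) (by omega)).mul_left _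
        have h5 : (p : ℤ) ∣ (P : ℤ) ^ (m + 2) := (dvd_add_left h4).1 h1
        have h6 := hpP.dvd_of_dvd_pow h5
        exact hQP p hp (Int.natCast_dvd_natCast.1 h6) (h3.trans hqdQ)
      have cP : ¬ p ∣ P := by
        intro h3
        have h4 : (p : ℤ) ∣ T := by
          have h5 : (p : ℤ) ∣ (P : ℤ) ^ (m + 2) := dvd_pow (Int.natCast_dvd_natCast.2 h3) (by omega)
          exact (dvd_add_right h5).1 h1
        rw [hT] at h4
        rcases hpP.dvd_mul.1 h4 with h5 | h5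
        · rcases hpP.dvd_mul.1 h5 with h6 | h6
          · exact cq ((Int.natCast_dvd.1 h6).trans hkq)
          · exact cq ((Int.natCast_dvd_natCast.1 (hpP.dvd_of_dvd_pow h6)).trans hn1q)
        · exact cq (Int.natCast_dvd_natCast.1 (hpP.dvd_of_dvd_pow h5))
      rw [hy] at h2
      rcases hpP.dvd_mul.1 h2 with h5 | h5
      · rcases hpP.dvd_mul.1 h5 with h6 | h6
        · exact cq ((Int.natCast_dvd_natCast.1 h6).trans hnq)
        · exact cP (Int.natCast_dvd_natCast.1 (hpP.dvd_of_dvd_pow h6))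
      · exact cq (Int.natCast_dvd_natCast.1 h5)
    rw [Int.isCoprime_iff_gcd_eq_one]
    by_contra hne
    obtain ⟨p, hp, hpd⟩ := Nat.exists_prime_and_dvd hne
    exact hnat p hp ((Int.natCast_dvd_natCast.2 hpd).trans (Int.gcd_dvd_left _ _))
      ((Int.natCast_dvd_natCast.2 hpd).trans (Int.gcd_dvd_right _ _))
  have hmain := hκ x y hcop (mul_ne_zero hy0 hxyne)
  -- the double root
  have hkQ : |k * (Q : ℤ) ^ (m + 2)| ≤ (P : ℤ) ^ (m + 2) := by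
    have h1 : |(k : ℝ)| * (Q : ℝ) ^ (m + 2) ≤ (P : ℝ) ^ (m + 2) := by
      have : 0 ≤ |(k : ℝ)| * (Q : ℝ) ^ (m + 2) := by positivity
      linarith
    rw [abs_mul, abs_of_nonneg (by positivity : (0 : ℤ) ≤ (Q : ℤ) ^ (m + 2))]
    exact_mod_cast h1
  obtain ⟨G, hG1, hG2⟩ := double_neg (m + 2) (by omega) (k * (Q : ℤ) ^ (m + 2)) ((P : ℤ) ^ (m + 2))
    ((P : ℤ) ^ (m + 2)) hkQ (by rw [abs_of_nonneg (by positivity)])
  simp only [show m + 2 - 2 = m by omega, show m + 2 - 1 = m + 1 by omega] at hG1 hG2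
  have hkey : ((m + 1 : ℕ) : ℤ) ^ (m + 2) * (x ^ (m + 2) - k * y ^ (m + 2)) =
      (k * (Q : ℤ) ^ (m + 2) - (P : ℤ) ^ (m + 2)) ^ 2 * G := by
    rw [← hG1]
    have e1 : k * (Q : ℤ) ^ (m + 2) + (((m + 2 : ℕ) : ℤ) - 1) * (P : ℤ) ^ (m + 2) =
        ((m + 1 : ℕ) : ℤ) * x := by
      rw [hx, hT, hQq]
      push_cast
      rw [mul_pow]
      ring
    rw [e1, mul_pow (((m + 1 : ℕ) : ℤ)) x (m + 2)]
    have e2 : ((m + 2 : ℕ) : ℤ) ^ (m + 2) * (k * (Q : ℤ) ^ (m + 2)) * ((P : ℤ) ^ (m + 2)) ^ (m + 1) =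
        ((m + 1 : ℕ) : ℤ) ^ (m + 2) * (k * y ^ (m + 2)) := by
      rw [hy, hQq]
      push_cast
      have e3 : ((P : ℤ) ^ (m + 2)) ^ (m + 1) = ((P : ℤ) ^ (m + 1)) ^ (m + 2) := by
        rw [← pow_mul, ← pow_mul, mul_comm]
      rw [e3]
      simp only [mul_pow]
      ring
    rw [e2]
    ring
  have hm1 : ((m + 1 : ℕ) : ℤ) ^ (m + 2) ≠ 0 := by positivity
  have hGne : G ≠ 0 := by
    rintro rfl
    rw [mul_zero] at hkey
    exact (mul_ne_zero hm1 hxyne) hkey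
  have hWne : (P : ℤ) ^ (m + 2) - k * (Q : ℤ) ^ (m + 2) ≠ 0 := by
    intro h0
    have h1 : k * (Q : ℤ) ^ (m + 2) - (P : ℤ) ^ (m + 2) = 0 := by linarith
    rw [h1] at hkey
    exact (mul_ne_zero hm1 hxyne) (by rw [hkey]; ring)
  have hRle : R (y * (x ^ (m + 2) - k * y ^ (m + 2))).natAbs ≤
      R (P * Q * ((P : ℤ) ^ (m + 2) - k * (Q : ℤ) ^ (m + 2)).natAbs) * ((m + 2) * G.natAbs) := by
    apply R_bound (mul_ne_zero (by positivity) (Int.natAbs_ne_zero.2 hWne))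
      (mul_ne_zero (by omega) (Int.natAbs_ne_zero.2 hGne))
    intro p hp hpd
    have hpP : Prime (p : ℤ) := Nat.prime_iff_prime_int.1 hp
    have h2 : (p : ℤ) ∣ y * (x ^ (m + 2) - k * y ^ (m + 2)) := Int.natCast_dvd.2 hpd
    rcases hpP.dvd_mul.1 h2 with h3 | h3
    · rw [hy] at h3
      rcases hpP.dvd_mul.1 h3 with h5 | h5
      · rcases hpP.dvd_mul.1 h5 with h6 | h6
        · exact ((Int.natCast_dvd_natCast.1 h6).mul_right _).mul_left _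
        · exact (((Int.natCast_dvd_natCast.1 (hpP.dvd_of_dvd_pow h6)).mul_right _).mul_right _).mul_right _
      · exact ((((Int.natCast_dvd_natCast.1 h5).trans hqdQ).mul_left _).mul_right _).mul_right _
    · have h4 : (p : ℤ) ∣ (k * (Q : ℤ) ^ (m + 2) - (P : ℤ) ^ (m + 2)) ^ 2 * G := by
        rw [← hkey]; exact h3.mul_left _
      rcases hpP.dvd_mul.1 h4 with h5 | h5
      · have h6 := hpP.dvd_of_dvd_pow h5
        have h7 : (p : ℤ) ∣ (P : ℤ) ^ (m + 2) - k * (Q : ℤ) ^ (m + 2) := by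
          rw [← neg_sub]; exact (dvd_neg (α := ℤ)).2 h6
        exact ((Int.natCast_dvd.1 h7).mul_left _).mul_right _
      · exact ((Int.natCast_dvd.1 h5).mul_left _).mul_left _
  set r : ℝ := (R (P * Q * ((P : ℤ) ^ (m + 2) - k * (Q : ℤ) ^ (m + 2)).natAbs) : ℝ) with hr
  have hr1 : (1 : ℝ) ≤ r := by rw [hr]; exact_mod_cast R_pos _
  have hGR : (G.natAbs : ℝ) ≤ C * (P : ℝ) ^ ((m + 2) * m) := by
    have h1 := (Int.cast_le (R := ℝ)).2 hG2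
    push_cast at h1
    rw [Nat.cast_natAbs, Int.cast_abs]
    refine h1.trans (le_of_eq ?_)
    rw [hC, ← pow_mul]
    push_cast
    ring
  have hRR : (R (y * (x ^ (m + 2) - k * y ^ (m + 2))).natAbs : ℝ) ≤
      K₂ * r * (P : ℝ) ^ ((m + 2) * (m + 1) - (m + 2)) := by
    have h1 : (R (y * (x ^ (m + 2) - k * y ^ (m + 2))).natAbs : ℝ) ≤
        r * (((m + 2 : ℕ) : ℝ) * (G.natAbs : ℝ)) := by
      rw [hr]; exact_mod_cast hRle
    have e1 : (m + 2) * (m + 1) - (m + 2) = (m + 2) * m := by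
      rw [mul_add, mul_one, Nat.add_sub_cancel]
    rw [e1]
    calc (R (y * (x ^ (m + 2) - k * y ^ (m + 2))).natAbs : ℝ)
        ≤ r * (((m + 2 : ℕ) : ℝ) * (G.natAbs : ℝ)) := h1
      _ ≤ r * (((m + 2 : ℕ) : ℝ) * (C * (P : ℝ) ^ ((m + 2) * m))) := by gcongr
      _ = (((m + 2 : ℕ) : ℝ) * C) * (r * (P : ℝ) ^ ((m + 2) * m)) := by ring
      _ ≤ K₂ * (r * (P : ℝ) ^ ((m + 2) * m)) := by gcongr
      _ = _ := by ring
  apply hκ₂ P r hP1 hr1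
  have hR0 : (0 : ℝ) ≤ (R (y * (x ^ (m + 2) - k * y ^ (m + 2))).natAbs : ℝ) := Nat.cast_nonneg _
  calc (P : ℝ) ^ ((m + 2) * (m + 1)) = ((P : ℝ) ^ (m + 2)) ^ (m + 1) := pow_mul _ _ _
    _ ≤ (2 * x) ^ (m + 1) := pow_le_pow_left₀ hPn.le hxR _
    _ = 2 ^ (m + 1) * (x : ℝ) ^ (m + 1) := mul_pow _ _ _
    _ ≤ 2 ^ (m + 1) * (max |(x : ℝ)| |(y : ℝ)|) ^ (m + 1) := by
        apply mul_le_mul_of_nonneg_left _ (by positivity)
        exact pow_le_pow_left₀ hx0.le ((le_abs_self _).trans (le_max_left _ _)) _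
    _ ≤ 2 ^ (m + 1) * (κ * (R (y * (x ^ (m + 2) - k * y ^ (m + 2))).natAbs : ℝ) ^ (1 + ε')) :=
        mul_le_mul_of_nonneg_left hmain (by positivity)
    _ ≤ K₂ * (max κ 1 * (R (y * (x ^ (m + 2) - k * y ^ (m + 2))).natAbs : ℝ) ^ (1 + ε')) := by
        have h0 : (0 : ℝ) ≤ (R (y * (x ^ (m + 2) - k * y ^ (m + 2))).natAbs : ℝ) ^ (1 + ε') :=
          Real.rpow_nonneg hR0 _
        have h1 : κ * (R (y * (x ^ (m + 2) - k * y ^ (m + 2))).natAbs : ℝ) ^ (1 + ε') ≤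
            max κ 1 * (R (y * (x ^ (m + 2) - k * y ^ (m + 2))).natAbs : ℝ) ^ (1 + ε') :=
          mul_le_mul_of_nonneg_right (le_max_left _ _) h0
        have h2 : (0 : ℝ) ≤ max κ 1 * (R (y * (x ^ (m + 2) - k * y ^ (m + 2))).natAbs : ℝ) ^ (1 + ε') :=
          mul_nonneg (le_trans zero_le_one (le_max_right _ _)) h0
        exact (mul_le_mul_of_nonneg_left h1 (by positivity)).trans
          (mul_le_mul_of_nonneg_right hK₂a h2)
    _ = K₂ * max κ 1 * (R (y * (x ^ (m + 2) - k * y ^ (m + 2))).natAbs : ℝ) ^ (1 + ε') := by ring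
    _ ≤ K₂ * max κ 1 * (K₂ * r * (P : ℝ) ^ ((m + 2) * (m + 1) - (m + 2))) ^ (1 + ε') := by
        apply mul_le_mul_of_nonneg_left _ (by positivity)
        exact Real.rpow_le_rpow hR0 hRR (by linarith)

end Pool.Agent.N746.Rt
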