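import Mathlib
import Pool.Agent.N746.Rt.StageA

/-!
# From the points `0`, `∞` and the `n`-th roots to `0, 1, ∞`
-/

namespace Pool.Agent.N746.Rt

open Finset Filter Pool.Agent.N746.Self Pool.Agent.N746.Tw

/-- what the map provides -/
def SrcB (n : ℕ) (k : ℤ) (N₀ : ℕ) (K : ℝ) (N₁ : ℕ) (K₁ : ℝ) (d : ℕ) : Prop :=
  ∀ X Y Z : ℕ, Z + Y = X → 0 < Y → 0 < Z → Nat.Coprime X Y → N₁ ∣ Z → (Z : ℝ) * K₁ ≤ X →
    ∃ P Q : ℕ, 0 < P ∧ 0 < Q ∧ Nat.Coprime P Q ∧ N₀ ∣ Q ∧ (Q : ℝ) * K ≤ P ∧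
      (P : ℤ) ^ n - k * (Q : ℤ) ^ n ≠ 0 ∧ (X : ℝ) ^ d ≤ K₁ * (P : ℝ) ^ n ∧
      (R (P * Q * ((P : ℤ) ^ n - k * (Q : ℤ) ^ n).natAbs) : ℝ) ≤
        K₁ * R (X * Y * Z) * (X : ℝ) ^ (d - 1)

theorem abc_of_nearB (n : ℕ) (k : ℤ) (N₀ : ℕ) (K : ℝ) (hB : NearB n k N₀ K) (N₁ : ℕ) (K₁ : ℝ) (d : ℕ)
    (hN₁ : 1 ≤ N₁) (hK₁ : 1 ≤ K₁) (hd : 1 ≤ d) (hS : SrcB n k N₀ K N₁ K₁ d) :
    ABC fun _ _ _ => True := by
  have hK0 : 0 < K₁ := by linarith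
  refine near_cusp N₁ hN₁ (1 / K₁) (by positivity) ?_
  intro ε hε
  obtain ⟨ε', hε', hsol⟩ := solve d hd ε hε
  obtain ⟨κ, hκ1, hκ⟩ := hB ε' hε'
  obtain ⟨κ₂, hκ₂1, hκ₂⟩ := hsol K₁ κ hK₁ hκ1
  refine ⟨κ₂, fun a b c ha hb hab habc hT => ?_⟩
  obtain ⟨hNa, hac⟩ := hT
  have hc0 : 0 < c := by omega
  have hcR : (1 : ℝ) ≤ c := by exact_mod_cast hc0
  have haK : (a : ℝ) * K₁ ≤ c := by
    have h0 := mul_le_mul_of_nonneg_right hac hK0.le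
    have e0 : 1 / K₁ * (c : ℝ) * K₁ = c := by field_simp
    linarith
  have hcb : Nat.Coprime c b := by rw [← habc]; simpa using hab
  obtain ⟨P, Q, hP, hQ, hPQ, hN, hQK, _, hXP, hR⟩ := hS c b a habc hb ha hcb hNa haK
  have h1 := hκ P Q hP hQ hPQ hN hQK
  have hR1' : (1 : ℝ) ≤ R (a * b * c) := by exact_mod_cast R_pos _
  apply hκ₂ _ _ hcR hR1'
  have e : c * b * a = a * b * c := by ring
  rw [e] at hR
  calc (c : ℝ) ^ d ≤ K₁ * (P : ℝ) ^ n := hXP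
    _ ≤ K₁ * (κ * (R (P * Q * ((P : ℤ) ^ n - k * (Q : ℤ) ^ n).natAbs) : ℝ) ^ (1 + ε')) :=
        mul_le_mul_of_nonneg_left h1 hK0.le
    _ = K₁ * κ * (R (P * Q * ((P : ℤ) ^ n - k * (Q : ℤ) ^ n).natAbs) : ℝ) ^ (1 + ε') := by ring
    _ ≤ K₁ * κ * (K₁ * R (a * b * c) * (c : ℝ) ^ (d - 1)) ^ (1 + ε') := by
        apply mul_le_mul_of_nonneg_left _ (by positivity)
        exact Real.rpow_le_rpow (Nat.cast_nonneg _) hR (by linarith)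

/-- `X ^ n - Z ^ n = Y S` with `S ≤ n X ^ (n - 1)` -/
theorem diff_pow (n X Y Z : ℕ) (hn : 1 ≤ n) (h : Z + Y = X) (hY : 0 < Y) (hZ : 0 < Z) :
    ∃ S T : ℕ, 0 < S ∧ T = Y * S ∧ T + Z ^ n = X ^ n ∧ S ≤ n * X ^ (n - 1) := by
  refine ⟨∑ i ∈ range n, X ^ i * Z ^ (n - 1 - i), _, ?_, rfl, ?_, ?_⟩
  · apply Finset.sum_pos
    · intro i _
      have : 0 < X := by omega
      positivity
    · exact ⟨0, mem_range.2 (by omega)⟩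
  · have h1 := Commute.geom_sum₂_mul (Commute.all (X : ℤ) (Z : ℤ)) n
    have h2 : (X : ℤ) - Z = Y := by
      have : ((Z + Y : ℕ) : ℤ) = X := by rw [h]
      push_cast at this
      linarith
    rw [h2] at h1
    have h3 : ((Y * ∑ i ∈ range n, X ^ i * Z ^ (n - 1 - i) + Z ^ n : ℕ) : ℤ) = ((X ^ n : ℕ) : ℤ) := by
      push_cast
      linarith
    exact_mod_cast h3
  · calc ∑ i ∈ range n, X ^ i * Z ^ (n - 1 - i) ≤ ∑ i ∈ range n, X ^ (n - 1) := by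
          apply Finset.sum_le_sum
          intro i hi
          have hi' := mem_range.1 hi
          calc X ^ i * Z ^ (n - 1 - i) ≤ X ^ i * X ^ (n - 1 - i) :=
                Nat.mul_le_mul_left _ (Nat.pow_le_pow_left (by omega) _)
            _ = X ^ (n - 1) := by rw [← pow_add]; congr 1; omega
      _ = n * X ^ (n - 1) := by simp

end Pool.Agent.N746.Rt
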