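import Mathlib
import Pool.Agent.N746.Rt.StageB

/-!
# The map for positive `k`
-/

namespace Pool.Agent.N746.Rt

open Finset Filter Pool.Agent.N746.Self Pool.Agent.N746.Tw

theorem srcB_pos (n t : ℕ) (hn : 2 ≤ n) (ht : 1 ≤ t) (N₀ : ℕ) (hN₀ : 1 ≤ N₀) (K : ℝ) (hK : 1 ≤ K) :
    ∃ (N₁ : ℕ) (K₁ : ℝ) (d : ℕ), 1 ≤ N₁ ∧ 1 ≤ K₁ ∧ 1 ≤ d ∧
      SrcB n ((n * t + 1 : ℕ) : ℤ) N₀ K N₁ K₁ d := by
  obtain ⟨e, he⟩ : ∃ e, e = n * t := ⟨_, rfl⟩
  obtain ⟨D, hD⟩ : ∃ D, D = e + 1 := ⟨_, rfl⟩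
  rw [← he, ← hD]
  have he2 : 2 ≤ e := by rw [he]; nlinarith
  have he0 : 0 < e := by omega
  have hD0 : 0 < D := by omega
  have heR : (1 : ℝ) ≤ e := by exact_mod_cast he0
  have hDR : (1 : ℝ) ≤ D := by exact_mod_cast hD0
  have hnR : (1 : ℝ) ≤ n := by exact_mod_cast (by omega : 1 ≤ n)
  set C : ℝ := (e : ℝ) ^ e + 2 ^ e * ((e : ℝ) + 2) ^ (e - 2) with hC
  have hC1 : 1 ≤ C := by
    have h1 : (1 : ℝ) ≤ (e : ℝ) ^ e := one_le_pow₀ heR
    have h2 : (0 : ℝ) ≤ 2 ^ e * ((e : ℝ) + 2) ^ (e - 2) := by positivity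
    rw [hC]; linarith
  have hDt : (1 : ℝ) ≤ (D : ℝ) ^ t := one_le_pow₀ hDR
  set K₁ : ℝ := 2 * D * ((D : ℝ) ^ t * K) + n * (D : ℝ) ^ (e + 1) * C with hK₁
  have hp1 : (0 : ℝ) ≤ n * (D : ℝ) ^ (e + 1) * C := by positivity
  have hp2 : (1 : ℝ) ≤ (D : ℝ) ^ t * K := one_le_mul_of_one_le_of_one_le hDt hK
  have hK₁a : 2 * D * ((D : ℝ) ^ t * K) ≤ K₁ := by rw [hK₁]; linarith
  have hK₁b : n * (D : ℝ) ^ (e + 1) * C ≤ K₁ := by
    have : 0 ≤ 2 * D * ((D : ℝ) ^ t * K) := by positivity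
    rw [hK₁]; linarith
  have hK₁1 : 1 ≤ K₁ := by nlinarith
  refine ⟨e ^ t * (D * N₀), K₁, n * D, ?_, hK₁1, ?_, ?_⟩
  · have : 0 < e ^ t * (D * N₀) := by positivity
    omega
  · have : 0 < n * D := by positivity
    omega
  intro X Y Z h hY hZ hXY hN hZK
  have hXZ : Nat.Coprime X Z := coprime_XZ h hXY
  have hX0 : 0 < X := by omega
  obtain ⟨k, hk⟩ := hN
  obtain ⟨W, hW⟩ : ∃ W, W = D * N₀ * k := ⟨_, rfl⟩
  have hZW : Z = e ^ t * W := by rw [hk, hW]; ring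
  have hW0 : 0 < W := by
    rcases Nat.eq_zero_or_pos W with h0 | h0
    · rw [h0] at hZW; omega
    · exact h0
  have hWdZ : W ∣ Z := ⟨e ^ t, by rw [hZW]; ring⟩
  have hWZ : W ≤ Z := Nat.le_of_dvd hZ hWdZ
  have hDW : D ∣ W := by rw [hW]; exact ⟨N₀ * k, by ring⟩
  have hN₀W : N₀ ∣ W := by rw [hW]; exact ⟨D * k, by ring⟩
  obtain ⟨S, T, hS0, hT, hT2, hS⟩ := diff_pow n X Y Z (by omega) h hY hZ
  have hT0 : 0 < T := by rw [hT]; positivity
  have hTX : T ≤ X ^ n := by omega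
  have hXR : (0 : ℝ) < X := by exact_mod_cast hX0
  have hZR : (0 : ℝ) < Z := by exact_mod_cast hZ
  have hTR : (T : ℝ) ≤ (X : ℝ) ^ n := by exact_mod_cast hTX
  have hTR0 : (0 : ℝ) < T := by exact_mod_cast hT0
  have hWR : (W : ℝ) ≤ Z := by exact_mod_cast hWZ
  have hWR0 : (0 : ℝ) < W := by exact_mod_cast hW0
  have hZX : (Z : ℝ) ≤ X := by nlinarith
  have hZXn : Z ≤ X := by exact_mod_cast hZX
  have hpZ : ∀ p : ℕ, p.Prime → p ∣ X → p ∣ Z → False := by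
    intro p hp h1 h2
    have := Nat.dvd_gcd h1 h2
    rw [hXZ] at this
    exact hp.one_lt.ne' (Nat.dvd_one.1 this)
  obtain ⟨P, hP⟩ : ∃ P, P = X ^ D := ⟨_, rfl⟩
  obtain ⟨Q, hQ⟩ : ∃ Q, Q = D ^ t * W * T ^ t := ⟨_, rfl⟩
  have hP0 : 0 < P := by rw [hP]; positivity
  have hQ0 : 0 < Q := by rw [hQ]; positivity
  have hPR0 : (0 : ℝ) < P := by exact_mod_cast hP0
  have hQR0 : (0 : ℝ) < Q := by exact_mod_cast hQ0
  -- size of `Q`
  have hQP : (Q : ℝ) * (2 * D * K) ≤ P := by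
    rw [hQ, hP]
    push_cast
    calc (D : ℝ) ^ t * W * (T : ℝ) ^ t * (2 * D * K)
        ≤ (D : ℝ) ^ t * Z * ((X : ℝ) ^ n) ^ t * (2 * D * K) := by gcongr
      _ = (Z * (2 * D * ((D : ℝ) ^ t * K))) * (X : ℝ) ^ e := by rw [he, pow_mul]; ring
      _ ≤ (Z * K₁) * (X : ℝ) ^ e := by gcongr
      _ ≤ X * (X : ℝ) ^ e := by gcongr
      _ = (X : ℝ) ^ D := by rw [hD]; ring
  have hQK : (Q : ℝ) * K ≤ P := by
    refine le_trans ?_ hQP
    apply mul_le_mul_of_nonneg_left _ hQR0.le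
    nlinarith
  have hDQ : (D : ℝ) * (Q : ℝ) ^ n < (P : ℝ) ^ n := by
    have h1 : (Q : ℝ) * (2 * D) ≤ P := by
      refine le_trans ?_ hQP
      apply mul_le_mul_of_nonneg_left _ hQR0.le
      exact le_mul_of_one_le_right (by positivity) hK
    have h2 : ((Q : ℝ) * (2 * D)) ^ n ≤ (P : ℝ) ^ n := pow_le_pow_left₀ (by positivity) h1 n
    rw [mul_pow] at h2
    have h3 : 2 * (D : ℝ) ≤ (2 * D) ^ n := by
      calc 2 * (D : ℝ) = (2 * (D : ℝ)) ^ 1 := (pow_one _).symm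
        _ ≤ _ := pow_le_pow_right₀ (by linarith) (by omega)
    have h4 : (Q : ℝ) ^ n * (2 * D) ≤ (Q : ℝ) ^ n * (2 * D) ^ n :=
      mul_le_mul_of_nonneg_left h3 (by positivity)
    have h5 : 0 < (D : ℝ) * (Q : ℝ) ^ n := by positivity
    linarith
  have hWne : (P : ℤ) ^ n - (D : ℤ) * (Q : ℤ) ^ n ≠ 0 := by
    have : (D : ℤ) * (Q : ℤ) ^ n < (P : ℤ) ^ n := by exact_mod_cast hDQ
    linarith
  -- the double root
  have hZI : (Z : ℤ) ≤ X := by exact_mod_cast hZXn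
  have hZI0 : (0 : ℤ) ≤ Z := Nat.cast_nonneg _
  have hDI : (1 : ℤ) ≤ D := by exact_mod_cast hD0
  have hZn : (Z : ℤ) ^ n ≤ (X : ℤ) ^ n := pow_le_pow_left₀ hZI0 hZI n
  have hXn0 : (0 : ℤ) ≤ (X : ℤ) ^ n := by positivity
  obtain ⟨G, hG1, hG2⟩ := double_pos e he2 (D * (Z : ℤ) ^ n) ((X : ℤ) ^ n) (D * (X : ℤ) ^ n)
    (by rw [abs_of_nonneg (by positivity)]; exact mul_le_mul_of_nonneg_left hZn (by positivity))
    (by rw [abs_of_nonneg (by positivity)]; nlinarith)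
  have hTI : (T : ℤ) = (X : ℤ) ^ n - (Z : ℤ) ^ n := by
    have : ((T + Z ^ n : ℕ) : ℤ) = ((X ^ n : ℕ) : ℤ) := by rw [hT2]
    push_cast at this
    linarith
  have hkey : (e : ℤ) ^ e * ((P : ℤ) ^ n - (D : ℤ) * (Q : ℤ) ^ n) =
      (D * (Z : ℤ) ^ n - (X : ℤ) ^ n) ^ 2 * G := by
    rw [← hG1]
    have h2 : ((e : ℤ) + 1) * (X : ℤ) ^ n - D * (Z : ℤ) ^ n = D * T := by
      rw [hTI, hD]; push_cast; ring
    rw [h2, mul_pow (D : ℤ) (T : ℤ) e]
    have h3 : (Z : ℤ) ^ n = (e : ℤ) ^ e * (W : ℤ) ^ n := by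
      rw [hZW]
      push_cast
      rw [mul_pow, ← pow_mul, mul_comm t n, ← he]
    have h4 : (P : ℤ) ^ n = ((X : ℤ) ^ n) ^ (e + 1) := by
      rw [hP]
      push_cast
      rw [← pow_mul, ← pow_mul, hD, mul_comm]
    have h5 : (Q : ℤ) ^ n = (D : ℤ) ^ e * (W : ℤ) ^ n * (T : ℤ) ^ e := by
      rw [hQ]
      push_cast
      rw [mul_pow, mul_pow, ← pow_mul, ← pow_mul, mul_comm t n, ← he]
    rw [h4, h5, h3]
    ring
  have hee : (e : ℤ) ^ e ≠ 0 := by positivity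
  have hGne : G ≠ 0 := by
    rintro rfl
    rw [mul_zero] at hkey
    exact (mul_ne_zero hee hWne) hkey
  have hSne : (D * (Z : ℤ) ^ n - (X : ℤ) ^ n) ≠ 0 := by
    intro h0
    rw [h0] at hkey
    exact (mul_ne_zero hee hWne) (by rw [hkey]; ring)
  refine ⟨P, Q, hP0, hQ0, ?_, ?_, hQK, hWne, ?_, ?_⟩
  · apply coprime_of
    intro p hp h1 h2
    rw [hP] at h1
    have h3 := hp.dvd_of_dvd_pow h1
    have cW : ¬ p ∣ W := fun h4 => hpZ p hp h3 (h4.trans hWdZ)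
    rw [hQ] at h2
    rcases hp.dvd_mul.1 h2 with h4 | h4
    · rcases hp.dvd_mul.1 h4 with h5 | h5
      · exact cW ((hp.dvd_of_dvd_pow h5).trans hDW)
      · exact cW h5
    · have h5 := hp.dvd_of_dvd_pow h4
      have h6 : p ∣ Z ^ n := by
        have : p ∣ T + Z ^ n := by rw [hT2]; exact dvd_pow h3 (by omega)
        exact (Nat.dvd_add_right h5).1 this
      exact hpZ p hp h3 (hp.dvd_of_dvd_pow h6)
  · rw [hQ]
    exact (hN₀W.mul_left _).mul_right _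
  · have e1 : (P : ℝ) ^ n = (X : ℝ) ^ (n * D) := by
      rw [hP]; push_cast; rw [← pow_mul, mul_comm]
    rw [e1]
    exact le_mul_of_one_le_left (by positivity) hK₁1
  · have hn0 : X * Y * Z ≠ 0 := by positivity
    have hw0 : D * S * ((D * (Z : ℤ) ^ n - (X : ℤ) ^ n).natAbs * G.natAbs) ≠ 0 :=
      mul_ne_zero (by positivity) (mul_ne_zero (Int.natAbs_ne_zero.2 hSne) (Int.natAbs_ne_zero.2 hGne))
    have hRb : R (P * Q * ((P : ℤ) ^ n - (D : ℤ) * (Q : ℤ) ^ n).natAbs) ≤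
        R (X * Y * Z) * (D * S * ((D * (Z : ℤ) ^ n - (X : ℤ) ^ n).natAbs * G.natAbs)) := by
      apply R_bound hn0 hw0
      intro p hp hd
      have hpP : Prime (p : ℤ) := Nat.prime_iff_prime_int.1 hp
      rcases hp.dvd_mul.1 hd with h3 | h3
      · rcases hp.dvd_mul.1 h3 with h4 | h4
        · rw [hP] at h4
          exact (((hp.dvd_of_dvd_pow h4).mul_right _).mul_right _).mul_right _
        · rw [hQ] at h4
          rcases hp.dvd_mul.1 h4 with h5 | h5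
          · rcases hp.dvd_mul.1 h5 with h6 | h6
            · exact (((hp.dvd_of_dvd_pow h6).mul_right _).mul_right _).mul_left _
            · exact ((h6.trans hWdZ).mul_left _).mul_right _
          · have h6 := hp.dvd_of_dvd_pow h5
            rw [hT] at h6
            rcases hp.dvd_mul.1 h6 with h7 | h7
            · exact ((h7.mul_left _).mul_right _).mul_right _
            · exact ((h7.mul_left _).mul_right _).mul_left _
      · have h4 : (p : ℤ) ∣ (D * (Z : ℤ) ^ n - (X : ℤ) ^ n) ^ 2 * G := by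
          rw [← hkey]; exact (Int.natCast_dvd.2 h3).mul_left _
        rcases hpP.dvd_mul.1 h4 with h5 | h5
        · exact (((Int.natCast_dvd.1 (hpP.dvd_of_dvd_pow h5)).mul_right _).mul_left _).mul_left _
        · exact (((Int.natCast_dvd.1 h5).mul_left _).mul_left _).mul_left _
    have hSR : (S : ℝ) ≤ n * (X : ℝ) ^ (n - 1) := by exact_mod_cast hS
    have hAR : ((D * (Z : ℤ) ^ n - (X : ℤ) ^ n).natAbs : ℝ) ≤ D * (X : ℝ) ^ n := by
      have h1 : |D * (Z : ℤ) ^ n - (X : ℤ) ^ n| ≤ D * (X : ℤ) ^ n := by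
        have h2 : (D : ℤ) * (Z : ℤ) ^ n ≤ D * (X : ℤ) ^ n := mul_le_mul_of_nonneg_left hZn (by positivity)
        have h3 : (0 : ℤ) ≤ D * (Z : ℤ) ^ n := by positivity
        rw [abs_le]
        constructor <;> nlinarith
      rw [Nat.cast_natAbs, Int.cast_abs]
      have := (Int.cast_le (R := ℝ)).2 h1
      push_cast at this ⊢
      exact this
    have hGR : (G.natAbs : ℝ) ≤ C * (D * (X : ℝ) ^ n) ^ (e - 1) := by
      have := (Int.cast_le (R := ℝ)).2 hG2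
      push_cast at this
      rw [Nat.cast_natAbs, Int.cast_abs]
      exact this
    calc (R (P * Q * ((P : ℤ) ^ n - (D : ℤ) * (Q : ℤ) ^ n).natAbs) : ℝ)
        ≤ ((R (X * Y * Z) * (D * S * ((D * (Z : ℤ) ^ n - (X : ℤ) ^ n).natAbs * G.natAbs)) : ℕ) : ℝ) := by
          exact_mod_cast hRb
      _ = R (X * Y * Z) * (D * S * (((D * (Z : ℤ) ^ n - (X : ℤ) ^ n).natAbs : ℝ) * (G.natAbs : ℝ))) := by
          rw [Nat.cast_mul, Nat.cast_mul, Nat.cast_mul, Nat.cast_mul]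
      _ ≤ R (X * Y * Z) * (D * (n * (X : ℝ) ^ (n - 1)) * ((D * (X : ℝ) ^ n) *
            (C * (D * (X : ℝ) ^ n) ^ (e - 1)))) := by gcongr
      _ = (n * D * C) * R (X * Y * Z) * ((X : ℝ) ^ (n - 1) * (D * (X : ℝ) ^ n) ^ ((e - 1) + 1)) := by ring
      _ = (n * D * C) * R (X * Y * Z) * ((X : ℝ) ^ (n - 1) * (D * (X : ℝ) ^ n) ^ e) := by
          rw [show e - 1 + 1 = e by omega]
      _ = (n * (D : ℝ) ^ (e + 1) * C) * R (X * Y * Z) * ((X : ℝ) ^ (n - 1) * (X : ℝ) ^ (n * e)) := by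
          rw [mul_pow (D : ℝ), ← pow_mul]; ring
      _ = (n * (D : ℝ) ^ (e + 1) * C) * R (X * Y * Z) * (X : ℝ) ^ (n * D - 1) := by
          rw [← pow_add]
          congr 2
          rw [hD, mul_add, mul_one]
          omega
      _ ≤ K₁ * R (X * Y * Z) * (X : ℝ) ^ (n * D - 1) := by gcongr

end Pool.Agent.N746.Rt
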