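import Mathlib
import Pool.Agent.N746.Rt.Pos
import Pool.Agent.N746.Rt.Neg

/-!
# The abc conjecture and the points `∞`, `α` with `α ^ n = k`
-/

namespace Pool.Agent.N746.Rt

open Finset Filter Pool.Agent.N746.Self Pool.Agent.N746.Tw

theorem abc_of_root_one (n : ℕ) (hn : 2 ≤ n) (k : ℤ) (hk1 : k ≠ 1) (hmod : (n : ℤ) ∣ k - 1)
    (h : RootPoints n k) : ABC fun _ _ _ => True := by
  have hn' : (2 : ℤ) ≤ n := by exact_mod_cast hn
  have hk0 : k ≠ 0 := by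
    rintro rfl
    have h1 : (n : ℤ) ∣ 1 := by
      have := (dvd_neg (α := ℤ)).2 hmod
      simpa using this
    have := Int.le_of_dvd (by norm_num) h1
    omega
  have hB := nearB_of_root n hn k hk0 h
  have hN₀ : 1 ≤ (n - 1) * (n * (n - 1) * k.natAbs) := by
    have h1 : 0 < n - 1 := by omega
    have h2 : 0 < k.natAbs := Int.natAbs_pos.2 hk0
    have : 0 < (n - 1) * (n * (n - 1) * k.natAbs) := by positivity
    omega
  have hK : (1 : ℝ) ≤ 4 * n * |(k : ℝ)| := by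
    have h1 : (1 : ℝ) ≤ |(k : ℝ)| := by exact_mod_cast Int.one_le_abs hk0
    have h2 : (1 : ℝ) ≤ n := by exact_mod_cast (by omega : 1 ≤ n)
    nlinarith
  obtain ⟨t, ht⟩ := hmod
  rcases lt_or_gt_of_ne hk0 with hneg | hpos
  · obtain ⟨D, hD⟩ : ∃ D : ℕ, k = -(D : ℤ) := ⟨k.natAbs, by omega⟩
    have hD0 : 0 < D := by omega
    have ht0 : t < 0 := by
      by_contra h0
      have : 0 ≤ (n : ℤ) * t := mul_nonneg (by omega) (by omega)
      omega
    obtain ⟨s, hs⟩ : ∃ s : ℕ, t = -(s : ℤ) := ⟨t.natAbs, by omega⟩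
    have hs1 : 1 ≤ s := by omega
    have hDs : D + 1 = n * s := by
      have : ((D + 1 : ℕ) : ℤ) = ((n * s : ℕ) : ℤ) := by
        push_cast
        rw [hs, hD] at ht
        linarith
      exact_mod_cast this
    obtain ⟨N₁, K₁, d, h1, h2, h3, h4⟩ := srcB_neg n s D hn hs1 hDs hD0 _ hN₀ _ hK
    rw [← hD] at h4
    exact abc_of_nearB n k _ _ hB N₁ K₁ d h1 h2 h3 h4
  · have ht0 : 0 < t := by
      by_contra h0
      have : (n : ℤ) * t ≤ 0 := mul_nonpos_of_nonneg_of_nonpos (by omega) (by omega)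
      have : k = 1 := by omega
      exact hk1 this
    obtain ⟨s, hs⟩ : ∃ s : ℕ, t = (s : ℤ) := ⟨t.natAbs, by omega⟩
    have hs1 : 1 ≤ s := by omega
    have hks : k = ((n * s + 1 : ℕ) : ℤ) := by
      push_cast
      rw [hs] at ht
      linarith
    obtain ⟨N₁, K₁, d, h1, h2, h3, h4⟩ := srcB_pos n s hn hs1 _ hN₀ _ hK
    rw [← hks] at h4
    exact abc_of_nearB n k _ _ hB N₁ K₁ d h1 h2 h3 h4

theorem abc_of_root (n : ℕ) (hn : 2 ≤ n) (k c d k' : ℤ) (hc : c ≠ 0) (hd : d ≠ 0)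
    (hkk : k * c ^ n = k' * d ^ n) (hmod : (n : ℤ) ∣ k' - 1) (h : RootPoints n k) :
    ABC fun _ _ _ => True := by
  have h1 : RootPoints n k' := scale n k k' d c hd hc hkk h
  rcases eq_or_ne k' 1 with h2 | h2
  · have h3 : RootPoints n (((n : ℤ) + 1) ^ n) := by
      refine scale n 1 (((n : ℤ) + 1) ^ n) 1 ((n : ℤ) + 1) one_ne_zero (by positivity) (by ring) ?_
      rw [← h2]; exact h1
    refine abc_of_root_one n hn _ ?_ ?_ h3
    · have : (1 : ℤ) < ((n : ℤ) + 1) ^ n := one_lt_pow₀ (by omega) (by omega)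
      exact this.ne'
    · have h4 := sub_dvd_pow_sub_pow ((n : ℤ) + 1) 1 n
      rw [one_pow] at h4
      simpa using h4
  · exact abc_of_root_one n hn k' h2 hmod h1

/-- for a prime `n` not dividing `k` -/
theorem prime_case (n : ℕ) (hn : n.Prime) (k : ℤ) (hk : ¬ (n : ℤ) ∣ k) :
    ∃ c k' : ℤ, c ≠ 0 ∧ k * c ^ n = k' * 1 ^ n ∧ (n : ℤ) ∣ k' - 1 := by
  haveI : Fact n.Prime := ⟨hn⟩
  have hnP : Prime (n : ℤ) := Nat.prime_iff_prime_int.1 hn
  obtain ⟨u, v, huv⟩ := (Int.isCoprime_iff_gcd_eq_one.2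
    (Int.isCoprime_iff_gcd_eq_one.1 ((Prime.coprime_iff_not_dvd hnP).2 hk).symm) : IsCoprime k (n : ℤ))
  refine ⟨u, k * u ^ n, ?_, by ring, ?_⟩
  · rintro rfl
    have : (n : ℤ) ∣ 1 := ⟨v, by linarith⟩
    exact hnP.not_isUnit (isUnit_of_dvd_one this)
  · rw [← ZMod.intCast_eq_intCast_iff_dvd_sub]
    push_cast
    rw [ZMod.pow_card]
    have : ((u * k + v * (n : ℤ) : ℤ) : ZMod n) = ((1 : ℤ) : ZMod n) := by rw [huv]
    push_cast at this
    rw [ZMod.natCast_self, mul_zero, add_zero] at this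
    rw [mul_comm, this]

theorem abc_iff_root (n : ℕ) (hn : 2 ≤ n) (k : ℤ) (hk0 : k ≠ 0)
    (hk : (∃ c d k' : ℤ, c ≠ 0 ∧ d ≠ 0 ∧ k * c ^ n = k' * d ^ n ∧ (n : ℤ) ∣ k' - 1) ∨
      (n.Prime ∧ ¬ (n : ℤ) ∣ k)) : RootPoints n k ↔ ABC fun _ _ _ => True := by
  refine ⟨fun h => ?_, root_of_abc n hn k hk0⟩
  rcases hk with ⟨c, d, k', hc, hd, hkk, hmod⟩ | ⟨hp, hnk⟩
  · exact abc_of_root n hn k c d k' hc hd hkk hmod h
  · obtain ⟨c, k', hc, hkk, hmod⟩ := prime_case n hp k hnk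
    exact abc_of_root n hn k c 1 k' hc one_ne_zero hkk hmod h

end Pool.Agent.N746.Rt
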